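import Mathlib

set_option autoImplicit false
open Equiv Equiv.Perm

namespace Pool.Agent.H202IG

theorem numeric_aux (r m : ℕ) (hm : 1 ≤ m) (h : 1 ≤ r ∨ 2 ≤ m) :
    2 * (Nat.factorial r * (3 ^ m * Nat.factorial (m + 1))) < Nat.factorial (r + 3 * m) := by
  have step : ∀ m : ℕ, 1 ≤ m →
      2 * (Nat.factorial r * (3 ^ m * Nat.factorial (m + 1))) < Nat.factorial (r + 3 * m) →
      2 * (Nat.factorial r * (3 ^ (m + 1) * Nat.factorial (m + 1 + 1))) <
        Nat.factorial (r + 3 * (m + 1)) := by
    intro m hm ih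
    have e1 : Nat.factorial (r + 3 * (m + 1)) =
        (r + 3 * m + 3) * ((r + 3 * m + 2) * ((r + 3 * m + 1) * Nat.factorial (r + 3 * m))) := by
      rw [show r + 3 * (m + 1) = (r + 3 * m) + 1 + 1 + 1 by ring, Nat.factorial_succ,
        Nat.factorial_succ, Nat.factorial_succ]
    have e2 : 2 * (Nat.factorial r * (3 ^ (m + 1) * Nat.factorial (m + 1 + 1))) =
        (3 * (m + 2)) * (2 * (Nat.factorial r * (3 ^ m * Nat.factorial (m + 1)))) := by
      rw [Nat.factorial_succ (m + 1), pow_succ]; ring
    rw [e1, e2]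
    have h1 : 3 * (m + 2) ≤ (r + 3 * m + 3) * ((r + 3 * m + 2) * (r + 3 * m + 1)) := by
      have : 3 * (m + 2) ≤ (r + 3 * m + 3) * (r + 3 * m + 2) := by nlinarith
      calc 3 * (m + 2) ≤ (r + 3 * m + 3) * (r + 3 * m + 2) := this
        _ ≤ (r + 3 * m + 3) * ((r + 3 * m + 2) * (r + 3 * m + 1)) := by
            apply Nat.mul_le_mul_left
            exact Nat.le_mul_of_pos_right _ (by omega)
    calc (3 * (m + 2)) * (2 * (Nat.factorial r * (3 ^ m * Nat.factorial (m + 1))))
        < (3 * (m + 2)) * Nat.factorial (r + 3 * m) :=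
          Nat.mul_lt_mul_of_pos_left ih (by omega)
      _ ≤ ((r + 3 * m + 3) * ((r + 3 * m + 2) * (r + 3 * m + 1))) * Nat.factorial (r + 3 * m) :=
          Nat.mul_le_mul_right _ h1
      _ = _ := by ring
  rcases h with h | h
  · induction m, hm using Nat.le_induction with
    | base =>
      have e : Nat.factorial (r + 3 * 1) = (r + 1 + 1 + 1) * ((r + 1 + 1) * ((r + 1) * Nat.factorial r)) := by
        rw [show r + 3 * 1 = r + 1 + 1 + 1 by ring, Nat.factorial_succ (r + 1 + 1),
          Nat.factorial_succ (r + 1), Nat.factorial_succ r]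
      rw [e]
      have hr := Nat.factorial_pos r
      have h2 : Nat.factorial (1 + 1) = 2 := rfl
      rw [h2]
      have : 12 < (r + 1 + 1 + 1) * ((r + 1 + 1) * (r + 1)) := by nlinarith [Nat.mul_le_mul h h]
      calc 2 * (Nat.factorial r * (3 ^ 1 * 2)) = 12 * Nat.factorial r := by ring
        _ < ((r + 1 + 1 + 1) * ((r + 1 + 1) * (r + 1))) * Nat.factorial r :=
            Nat.mul_lt_mul_of_pos_right this hr
        _ = _ := by ring
    | succ m hm ih => exact step m hm ih
  · induction m, h using Nat.le_induction with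
    | base =>
      have hr := Nat.factorial_pos r
      have e : Nat.factorial (r + 3 * 2) = (r + 6) * ((r + 5) * ((r + 4) * ((r + 3) * ((r + 2) * ((r + 1) * Nat.factorial r))))) := by
        rw [show r + 3 * 2 = r + 1 + 1 + 1 + 1 + 1 + 1 by ring, Nat.factorial_succ,
          Nat.factorial_succ, Nat.factorial_succ, Nat.factorial_succ, Nat.factorial_succ,
          Nat.factorial_succ]
      rw [e]
      have h3 : Nat.factorial (2 + 1) = 6 := rfl
      rw [h3]
      have h1 : 6 * (5 * (4 * (3 * (2 * (1 * Nat.factorial r))))) ≤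
          (r + 6) * ((r + 5) * ((r + 4) * ((r + 3) * ((r + 2) * ((r + 1) * Nat.factorial r))))) := by
        gcongr <;> omega
      omega
    | succ m hm2 ih => exact step m (by omega) (ih (by omega))

theorem threeCycle_map {ι : Type} [Fintype ι] [DecidableEq ι] (hι : 7 ≤ Fintype.card ι)
    (φ : alternatingGroup ι ≃* alternatingGroup ι) (g : alternatingGroup ι)
    (hg : (g : Equiv.Perm ι).IsThreeCycle) :
    ((φ g : alternatingGroup ι) : Equiv.Perm ι).IsThreeCycle := by
  have ho : orderOf ((φ g : alternatingGroup ι) : Equiv.Perm ι) = 3 := by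
    rw [Subgroup.orderOf_coe, φ.orderOf_eq, ← Subgroup.orderOf_coe]
    exact hg.orderOf
  obtain ⟨m, hm⟩ := Equiv.Perm.cycleType_prime_order (σ := ((φ g : alternatingGroup ι) : Equiv.Perm ι))
    (by rw [ho]; norm_num)
  rw [ho] at hm
  rcases Nat.eq_zero_or_pos m with h0 | hpos
  · rw [h0] at hm; simpa [Equiv.Perm.IsThreeCycle] using hm
  exfalso
  have hsum := Equiv.Perm.sum_cycleType_le ((φ g : alternatingGroup ι) : Equiv.Perm ι)
  rw [hm] at hsum
  simp only [Multiset.sum_replicate, smul_eq_mul] at hsum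
  -- centraliser orders
  have c1 : Nat.card (Subgroup.centralizer {(g : Equiv.Perm ι)}) =
      Nat.factorial (Fintype.card ι - 3) * 3 := by
    rw [Equiv.Perm.nat_card_centralizer, hg.cycleType]
    simp
  have c2 : Nat.card (Subgroup.centralizer {((φ g : alternatingGroup ι) : Equiv.Perm ι)}) =
      Nat.factorial (Fintype.card ι - 3 * (m + 1)) * (3 ^ (m + 1) * Nat.factorial (m + 1)) := by
    rw [Equiv.Perm.nat_card_centralizer, hm, Multiset.toFinset_replicate, if_neg (Nat.succ_ne_zero m),
      Finset.prod_singleton, Multiset.count_replicate_self, Multiset.sum_replicate,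
      Multiset.prod_replicate, smul_eq_mul, mul_comm (m + 1) 3, mul_assoc]
  have c3 : Nat.card (Subgroup.centralizer {g}) = Nat.card (Subgroup.centralizer {φ g}) := by
    refine Nat.card_congr (φ.toEquiv.subtypeEquiv ?_)
    intro y
    simp only [Subgroup.mem_centralizer_singleton_iff]
    constructor
    · intro h; simpa using congrArg φ h
    · intro h
      apply φ.injective
      simpa using h
  have c4 : Nat.card (Subgroup.centralizer {φ g}) ≤
      Nat.card (Subgroup.centralizer {((φ g : alternatingGroup ι) : Equiv.Perm ι)}) := by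
    refine Nat.card_le_card_of_injective
      (fun y => ⟨((y : alternatingGroup ι) : Equiv.Perm ι), ?_⟩) ?_
    · have := y.2
      rw [Subgroup.mem_centralizer_singleton_iff] at this ⊢
      simpa using congrArg (Subtype.val) this
    · intro y z h
      simp only [Subtype.mk.injEq] at h
      exact Subtype.ext (Subtype.ext h)
  have c5 : Nat.card (Subgroup.centralizer {(g : Equiv.Perm ι)}) ≤
      2 * Nat.card (Subgroup.centralizer {g}) := by
    have : Nontrivial ι := Fintype.one_lt_card_iff_nontrivial.1 (by omega)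
    obtain ⟨C, hC⟩ : ∃ C, C = Subgroup.centralizer {(g : Equiv.Perm ι)} := ⟨_, rfl⟩
    rw [← hC]
    have e1 := (alternatingGroup ι).relIndex_dvd_index_of_normal C
    rw [alternatingGroup.index_eq_two] at e1
    have e2 : (alternatingGroup ι).relIndex C ≤ 2 := Nat.le_of_dvd (by norm_num) e1
    have e3 : Nat.card C = Nat.card ((alternatingGroup ι).subgroupOf C) * (alternatingGroup ι).relIndex C := by
      rw [Subgroup.relIndex, Subgroup.card_mul_index]
    have e4 : Nat.card ((alternatingGroup ι).subgroupOf C) ≤ Nat.card (Subgroup.centralizer {g}) := by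
      refine Nat.card_le_card_of_injective
        (fun y => ⟨⟨((y : C) : Equiv.Perm ι), Subgroup.mem_subgroupOf.1 y.2⟩, ?_⟩) ?_
      · have h7 : ((y : C) : Equiv.Perm ι) ∈ Subgroup.centralizer {(g : Equiv.Perm ι)} := hC ▸ y.1.2
        rw [Subgroup.mem_centralizer_singleton_iff] at h7
        rw [Subgroup.mem_centralizer_singleton_iff]
        exact Subtype.ext (by simpa using h7)
      · intro y z h
        simp only [Subtype.mk.injEq] at h
        exact Subtype.ext (Subtype.ext h)
    rw [e3]
    calc _ ≤ Nat.card (Subgroup.centralizer {g}) * 2 := Nat.mul_le_mul e4 e2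
      _ = _ := by ring
  have hn := numeric_aux (Fintype.card ι - 3 * (m + 1)) m hpos (by omega)
  rw [show Fintype.card ι - 3 * (m + 1) + 3 * m = Fintype.card ι - 3 by omega] at hn
  have h5 : 3 * Nat.factorial (Fintype.card ι - 3) ≤
      2 * (Nat.factorial (Fintype.card ι - 3 * (m + 1)) * (3 ^ (m + 1) * Nat.factorial (m + 1))) := by
    rw [← c2]
    calc 3 * Nat.factorial (Fintype.card ι - 3) = Nat.card (Subgroup.centralizer {(g : Equiv.Perm ι)}) := by
          rw [c1]; ring
      _ ≤ 2 * Nat.card (Subgroup.centralizer {g}) := c5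
      _ ≤ _ := by rw [c3]; exact Nat.mul_le_mul_left _ c4
  have h6 : 2 * (Nat.factorial (Fintype.card ι - 3 * (m + 1)) * (3 ^ (m + 1) * Nat.factorial (m + 1))) =
      3 * (2 * (Nat.factorial (Fintype.card ι - 3 * (m + 1)) * (3 ^ m * Nat.factorial (m + 1)))) := by
    rw [pow_succ]; ring
  omega

end Pool.Agent.H202IG
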