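import Mathlib
import Pool.Agent.H202IG.ThreeCycle

set_option autoImplicit false
open Equiv Equiv.Perm MulAction
open scoped Pointwise

namespace Pool.Agent.H202IG

/-- a transitive group generated by 3-cycles is primitive -/
theorem preprimitive_of_threeCycles {ι : Type} [Fintype ι] [DecidableEq ι]
    (G : Subgroup (Perm ι)) (S : Set (Perm ι)) (hS : ∀ g ∈ S, g.IsThreeCycle)
    (hG : G = Subgroup.closure S) [IsPretransitive G ι] : IsPreprimitive G ι := by
  refine { isTrivialBlock_of_isBlock := ?_ }
  intro B hB
  by_cases hsub : B.Subsingleton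
  · exact Or.inl hsub
  right
  have key : ∀ g ∈ S, g • B = B := by
    intro g hg
    have hgG : g ∈ G := hG ▸ Subgroup.subset_closure hg
    rcases hB.smul_eq_or_disjoint ⟨g, hgG⟩ with h | h
    · exact h
    exfalso
    have h' : Disjoint (g • B) B := h
    have hBs : B ⊆ (g.support : Set ι) := by
      intro x hx
      rw [Finset.mem_coe, mem_support]
      intro hgx
      exact Set.disjoint_left.1 h' ⟨x, hx, hgx⟩ hx
    have hgBs : g • B ⊆ (g.support : Set ι) := by
      rintro _ ⟨x, hx, rfl⟩
      have := hBs hx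
      rw [Finset.mem_coe] at this ⊢
      exact (apply_mem_support).2 this
    have hc : (g • B).ncard = B.ncard := Set.ncard_smul_set g B
    have h1 : 2 ≤ B.ncard := by
      rw [Set.not_subsingleton_iff] at hsub
      exact (Set.one_lt_ncard (B.toFinite)).2 (by obtain ⟨a, ha, b, hb, hab⟩ := hsub; exact ⟨a, ha, b, hb, hab⟩)
    have h2 : (g • B ∪ B).ncard ≤ 3 := by
      rw [← (hS g hg).card_support, ← Set.ncard_coe_finset]
      exact Set.ncard_le_ncard (Set.union_subset hgBs hBs)
    rw [Set.ncard_union_eq h', hc] at h2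
    omega
  have key2 : ∀ g ∈ G, g • B = B := by
    intro g hg
    have : G ≤ MulAction.stabilizer (Perm ι) B := by
      rw [hG, Subgroup.closure_le]
      intro g hg
      exact key g hg
    exact this hg
  rw [Set.not_subsingleton_iff] at hsub
  obtain ⟨x, hx⟩ := hsub.nonempty
  refine Set.eq_univ_of_forall fun y => ?_
  obtain ⟨g, hg⟩ := exists_smul_eq G x y
  rw [← key2 g g.2]
  exact ⟨x, hx, hg⟩

theorem orbit_bound {A ι : Type} [Group A] [Finite A] [IsSimpleGroup A] [MulAction A ι] [Finite ι]
    (x : ι) (hx : ∃ a : A, a • x ≠ x) :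
    Nat.card A ≤ Nat.factorial (Nat.card (MulAction.orbit A x)) := by
  rw [← Nat.card_perm]
  have hker : (MulAction.toPermHom A (MulAction.orbit A x)).ker = ⊥ := by
    rcases IsSimpleGroup.eq_bot_or_eq_top_of_normal
      (MulAction.toPermHom A (MulAction.orbit A x)).ker inferInstance with h | h
    · exact h
    exfalso
    obtain ⟨a, ha⟩ := hx
    apply ha
    have : a ∈ (MulAction.toPermHom A (MulAction.orbit A x)).ker := h ▸ Subgroup.mem_top a
    rw [MonoidHom.mem_ker] at this
    have h2 := congrArg (fun σ : Perm (MulAction.orbit A x) => (σ ⟨x, mem_orbit_self x⟩ : ι)) this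
    simpa using h2
  exact Nat.card_le_card_of_injective _ ((MonoidHom.ker_eq_bot_iff _).1 hker)

theorem stab_le_closure {ι : Type} [Fintype ι] [DecidableEq ι] (i : ι) :
    MulAction.stabilizer (alternatingGroup ι) i =
      (Subgroup.closure {g : alternatingGroup (({i}ᶜ : Finset ι)) | (g : Perm ({i}ᶜ : Finset ι)).IsThreeCycle}).map
        (alternatingGroup.ofSubtype ({i}ᶜ : Finset ι)) := by
  rw [alternatingGroup.closure_isThreeCycles_eq_top, ← MonoidHom.range_eq_map]
  ext g
  rw [alternatingGroup.mem_range_ofSubtype_iff, MulAction.mem_stabilizer_iff]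
  constructor
  · intro h x hx
    rw [Finset.mem_compl, Finset.mem_singleton]
    rintro rfl
    rw [mem_support] at hx
    exact hx h
  · intro h
    by_contra hne
    have := h (mem_support.2 (show (g : Perm ι) i ≠ i from hne))
    simp at this


theorem card_perm_compl {ι : Type} [Fintype ι] [DecidableEq ι] (hι : 7 ≤ Fintype.card ι) (i : ι) :
    2 * Nat.card (alternatingGroup (({i}ᶜ : Finset ι))) = Nat.factorial (Fintype.card ι - 1) := by
  have h1 : Fintype.card (({i}ᶜ : Finset ι)) = Fintype.card ι - 1 := by
    simp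
  have : Nontrivial (({i}ᶜ : Finset ι)) := Fintype.one_lt_card_iff_nontrivial.1 (by omega)
  rw [two_mul_nat_card_alternatingGroup, Nat.card_perm, Nat.card_eq_fintype_card, h1]

/-- the image of a point stabiliser under an automorphism preserving 3-cycles fixes a point -/
theorem exists_fixed {ι : Type} [Fintype ι] [DecidableEq ι] (hι : 7 ≤ Fintype.card ι)
    (φ : alternatingGroup ι ≃* alternatingGroup ι)
    (h3 : ∀ g : alternatingGroup ι, (g : Equiv.Perm ι).IsThreeCycle →
      ((φ g : alternatingGroup ι) : Equiv.Perm ι).IsThreeCycle) (i : ι) :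
    ∃ j : ι, ∀ g : alternatingGroup ι, (g : Perm ι) i = i → (φ g : Perm ι) j = j := by
  classical
  -- the homomorphism f
  let A := alternatingGroup (({i}ᶜ : Finset ι))
  let f : A →* Perm ι := (alternatingGroup ι).subtype.comp
    (φ.toMonoidHom.comp (alternatingGroup.ofSubtype ({i}ᶜ : Finset ι)))
  have hf : Function.Injective f := by
    intro a b hab
    have h1 : φ (alternatingGroup.ofSubtype ({i}ᶜ : Finset ι) a) =
        φ (alternatingGroup.ofSubtype ({i}ᶜ : Finset ι) b) := Subtype.ext hab
    exact alternatingGroup.ofSubtype_injective (φ.injective h1)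
  have hcard := card_perm_compl hι i
  have hsimple : IsSimpleGroup A := by
    apply alternatingGroup.isSimpleGroup
    have h1 : Fintype.card (({i}ᶜ : Finset ι)) = Fintype.card ι - 1 := by
      simp
    rw [Nat.card_eq_fintype_card, h1]; omega
  let act : MulAction A ι := MulAction.compHom ι f
  have hact : ∀ (a : A) (x : ι), a • x = f a x := fun a x => rfl
  suffices h : ∃ j : ι, ∀ a : A, a • j = j by
    obtain ⟨j, hj⟩ := h
    refine ⟨j, fun g hg => ?_⟩
    have hg' : g ∈ MulAction.stabilizer (alternatingGroup ι) i := hg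
    rw [stab_le_closure, alternatingGroup.closure_isThreeCycles_eq_top] at hg'
    obtain ⟨a, -, rfl⟩ := hg'
    exact hj a
  by_contra hno
  push Not at hno
  -- not transitive
  have hnt : ¬ IsPretransitive A ι := by
    intro htr
    have hR : f.range = Subgroup.closure
        (f '' {g : A | (g : Perm (({i}ᶜ : Finset ι))).IsThreeCycle}) := by
      rw [← MonoidHom.map_closure, alternatingGroup.closure_isThreeCycles_eq_top,
        ← MonoidHom.range_eq_map]
    have hS : ∀ g ∈ f '' {g : A | (g : Perm (({i}ᶜ : Finset ι))).IsThreeCycle}, g.IsThreeCycle := by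
      rintro _ ⟨g, hg, rfl⟩
      apply h3
      rw [alternatingGroup.coe_ofSubtype]
      rw [Equiv.Perm.IsThreeCycle, Equiv.Perm.cycleType_ofSubtype]
      exact hg
    have htr' : IsPretransitive f.range ι := by
      refine ⟨fun x y => ?_⟩
      obtain ⟨a, ha⟩ := htr.exists_smul_eq x y
      exact ⟨⟨f a, a, rfl⟩, ha⟩
    have hprim := preprimitive_of_threeCycles f.range _ hS hR
    -- a three cycle in f.range
    have hn1 : 3 ≤ Nat.card (({i}ᶜ : Finset ι)) := by
      have h1 : Fintype.card (({i}ᶜ : Finset ι)) = Fintype.card ι - 1 := by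
        simp
      rw [Nat.card_eq_fintype_card, h1]; omega
    have hex : ∃ g : A, (g : Perm (({i}ᶜ : Finset ι))).IsThreeCycle := by
      by_contra hne
      push Not at hne
      have h5 := alternatingGroup.closure_isThreeCycles_eq_top (α := (({i}ᶜ : Finset ι)))
      have h6 : {g : alternatingGroup (({i}ᶜ : Finset ι)) |
          Equiv.Perm.IsThreeCycle (g : Equiv.Perm (({i}ᶜ : Finset ι)))} = ∅ :=
        Set.eq_empty_of_forall_notMem hne
      rw [h6, Subgroup.closure_empty] at h5
      have h7 := alternatingGroup.nontrivial_of_three_le_card hn1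
      exact bot_ne_top h5
    obtain ⟨g, hg⟩ := hex
    have hle := alternatingGroup_le_of_isPreprimitive_of_isThreeCycle_mem hprim
      (hS (f g) ⟨g, hg, rfl⟩) ⟨g, rfl⟩
    have h8 : Nat.card (alternatingGroup ι) ≤ Nat.card A := by
      calc Nat.card (alternatingGroup ι) ≤ Nat.card f.range := Subgroup.card_le_of_le hle
        _ ≤ Nat.card A := Nat.card_le_card_of_surjective f.rangeRestrict f.rangeRestrict_surjective
    have : Nontrivial ι := Fintype.one_lt_card_iff_nontrivial.1 (by omega)
    have h9 := two_mul_nat_card_alternatingGroup (α := ι)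
    rw [Nat.card_perm, Nat.card_eq_fintype_card (α := ι)] at h9
    have h10 : Nat.factorial (Fintype.card ι) = Fintype.card ι * Nat.factorial (Fintype.card ι - 1) := by
      rw [Nat.mul_factorial_pred (by omega)]
    have h11 := Nat.factorial_pos (Fintype.card ι - 1)
    nlinarith
  -- two orbits
  have : ∃ x y : ι, y ∉ MulAction.orbit A x := by
    by_contra h
    push Not at h
    exact hnt ⟨fun x y => h x y⟩
  obtain ⟨x, y, hxy⟩ := this
  have hdisj : Disjoint (MulAction.orbit A x) (MulAction.orbit A y) := by
    rw [Set.disjoint_left]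
    intro z hz1 hz2
    apply hxy
    have e1 := MulAction.orbit_eq_iff.2 hz1
    have e2 := MulAction.orbit_eq_iff.2 hz2
    rw [← e1, e2]
    exact mem_orbit_self y
  have hy2 : 2 ≤ (MulAction.orbit A y).ncard := by
    obtain ⟨a, ha⟩ := hno y
    exact (Set.one_lt_ncard (Set.toFinite _)).2 ⟨y, mem_orbit_self y, a • y, mem_orbit y a, fun h => ha h.symm⟩
  have hsum : (MulAction.orbit A x).ncard + (MulAction.orbit A y).ncard ≤ Fintype.card ι := by
    rw [← Set.ncard_union_eq hdisj, ← Nat.card_eq_fintype_card, ← Set.ncard_univ]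
    exact Set.ncard_le_ncard (Set.subset_univ _)
  have hb := orbit_bound (A := A) x (hno x)
  have hb2 : Nat.factorial (Nat.card (MulAction.orbit A x)) ≤ Nat.factorial (Fintype.card ι - 2) := by
    apply Nat.factorial_le
    rw [Nat.card_coe_set_eq]
    omega
  have h12 : Nat.factorial (Fintype.card ι - 1) = (Fintype.card ι - 1) * Nat.factorial (Fintype.card ι - 2) := by
    rw [show Fintype.card ι - 2 = Fintype.card ι - 1 - 1 by omega, Nat.mul_factorial_pred (by omega)]
  have h13 := Nat.factorial_pos (Fintype.card ι - 2)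
  have h14 : 6 * Nat.factorial (Fintype.card ι - 2) ≤ (Fintype.card ι - 1) * Nat.factorial (Fintype.card ι - 2) :=
    Nat.mul_le_mul_right _ (by omega)
  change Nat.card (alternatingGroup (({i}ᶜ : Finset ι))) ≤ _ at hb
  omega


theorem fix_only {ι : Type} [Fintype ι] [DecidableEq ι] (hι : 7 ≤ Fintype.card ι) (i k : ι)
    (h : ∀ g : alternatingGroup ι, (g : Perm ι) i = i → (g : Perm ι) k = k) : k = i := by
  by_contra hne
  obtain ⟨u, hu⟩ : ∃ u, u ∉ ({i, k} : Finset ι) := by
    by_contra hc
    push Not at hc
    have : Fintype.card ι ≤ ({i, k} : Finset ι).card := by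
      rw [← Finset.card_univ]; exact Finset.card_le_card fun x _ => hc x
    have h2 := Finset.card_le_two (a := i) (b := k)
    omega
  obtain ⟨v, hv⟩ : ∃ v, v ∉ ({i, k, u} : Finset ι) := by
    by_contra hc
    push Not at hc
    have : Fintype.card ι ≤ ({i, k, u} : Finset ι).card := by
      rw [← Finset.card_univ]; exact Finset.card_le_card fun x _ => hc x
    have h2 := Finset.card_le_three (a := i) (b := k) (c := u)
    omega
  simp only [Finset.mem_insert, Finset.mem_singleton, not_or] at hu hv
  have hg : swap k u * swap k v ∈ alternatingGroup ι := by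
    rw [mem_alternatingGroup, map_mul, sign_swap (Ne.symm hu.2), sign_swap (Ne.symm hv.2.1)]
    rfl
  have h1 := h ⟨swap k u * swap k v, hg⟩ (by
    simp only [coe_mul, Function.comp_apply]
    rw [swap_apply_of_ne_of_ne (Ne.symm hne) (Ne.symm hv.1),
      swap_apply_of_ne_of_ne (Ne.symm hne) (Ne.symm hu.1)])
  simp only [coe_mul, Function.comp_apply] at h1
  rw [swap_apply_left, swap_apply_of_ne_of_ne hv.2.1 hv.2.2] at h1
  exact hv.2.1 h1

/-- Every automorphism of `A_n`, `n ≥ 7`, is conjugation by a permutation. -/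
theorem aut_eq_conj {ι : Type} [Fintype ι] [DecidableEq ι] (hι : 7 ≤ Fintype.card ι)
    (φ : alternatingGroup ι ≃* alternatingGroup ι) :
    ∃ σ : Equiv.Perm ι, ∀ g : alternatingGroup ι,
      ((φ g : alternatingGroup ι) : Equiv.Perm ι) = σ * (g : Equiv.Perm ι) * σ⁻¹ := by
  choose σ hσ using exists_fixed hι φ (threeCycle_map hι φ)
  choose τ hτ using exists_fixed hι φ.symm (threeCycle_map hι φ.symm)
  have e1 : ∀ i, τ (σ i) = i := by
    intro i
    apply fix_only hι
    intro g hg
    have := hτ (σ i) (φ g) (hσ i g hg)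
    simpa using this
  have e2 : ∀ i, σ (τ i) = i := by
    intro i
    apply fix_only hι
    intro g hg
    have := hσ (τ i) (φ.symm g) (hτ i g hg)
    simpa using this
  let s : Perm ι := ⟨σ, τ, e1, e2⟩
  have key : ∀ (g : alternatingGroup ι) (i : ι), (φ g : Perm ι) (σ i) = σ ((g : Perm ι) i) := by
    intro g i
    apply fix_only hι
    intro h hh
    have h1 := hτ _ h hh
    rw [e1] at h1
    have h2 := hσ i (g⁻¹ * φ.symm h * g) (by
      simp only [Subgroup.coe_mul, coe_mul, Function.comp_apply, h1]
      simp)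
    simp only [map_mul, map_inv, MulEquiv.apply_symm_apply, Subgroup.coe_mul, coe_mul,
      Function.comp_apply] at h2
    have h3 := congrArg ((φ g : alternatingGroup ι) : Perm ι) h2
    simpa using h3
  refine ⟨s, fun g => ?_⟩
  rw [eq_mul_inv_iff_mul_eq]
  ext i
  exact key g i

end Pool.Agent.H202IG
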