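import Mathlib

set_option autoImplicit false

namespace Pool.Agent.H202IG

section
variable {κ : Type} [Fintype κ] [DecidableEq κ] {T : Type} [Group T] [IsSimpleGroup T]

theorem exists_not_comm (hT : ∃ x y : T, x * y ≠ y * x) (x : T) (hx : x ≠ 1) :
    ∃ s : T, s * x ≠ x * s := by
  by_contra h
  push Not at h
  have hc : x ∈ Subgroup.center T := Subgroup.mem_center_iff.2 fun g => h g
  rcases IsSimpleGroup.eq_bot_or_eq_top_of_normal (Subgroup.center T) inferInstance with h1 | h1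
  · rw [h1, Subgroup.mem_bot] at hc; exact hx hc
  · obtain ⟨a, b, hab⟩ := hT
    have : a ∈ Subgroup.center T := h1 ▸ Subgroup.mem_top a
    exact hab (Subgroup.mem_center_iff.1 this b).symm

theorem mulSingle_mem_of_normal (hT : ∃ x y : T, x * y ≠ y * x) (K : Subgroup (κ → T)) [K.Normal]
    (t : κ → T) (ht : t ∈ K) (i : κ) (hi : t i ≠ 1) (x : T) : Pi.mulSingle i x ∈ K := by
  obtain ⟨s, hs⟩ := exists_not_comm hT (t i) hi
  let N : Subgroup T := K.comap (MonoidHom.mulSingle (fun _ : κ => T) i)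
  have hN : N.Normal := inferInstance
  have hmem : s * t i * s⁻¹ * (t i)⁻¹ ∈ N := by
    change MonoidHom.mulSingle (fun _ : κ => T) i (s * t i * s⁻¹ * (t i)⁻¹) ∈ K
    have : MonoidHom.mulSingle (fun _ : κ => T) i (s * t i * s⁻¹ * (t i)⁻¹) =
        (Pi.mulSingle i s * t * (Pi.mulSingle i s)⁻¹) * t⁻¹ := by
      funext j
      by_cases hj : j = i
      · subst hj; simp
      · simp [Pi.mulSingle_eq_of_ne hj]
    rw [this]
    exact K.mul_mem (Subgroup.Normal.conj_mem inferInstance t ht _) (K.inv_mem ht)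
  rcases IsSimpleGroup.eq_bot_or_eq_top_of_normal N hN with h | h
  · rw [h, Subgroup.mem_bot, mul_inv_eq_one, mul_inv_eq_iff_eq_mul] at hmem
    exact absurd hmem hs
  · have : x ∈ N := h ▸ Subgroup.mem_top x
    exact this

theorem exists_coord (hT : ∃ x y : T, x * y ≠ y * x) (φ : (κ → T) ≃* (κ → T)) (i : κ) :
    ∃ j : κ, ∀ x : T, ∃ y : T, φ (Pi.mulSingle i y) = Pi.mulSingle j x := by
  let R : Subgroup (κ → T) := (MonoidHom.mulSingle (fun _ : κ => T) i).range
  have hR : R.Normal := by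
    refine ⟨fun n hn g => ?_⟩
    obtain ⟨x, rfl⟩ := hn
    refine ⟨g i * x * (g i)⁻¹, ?_⟩
    funext j
    by_cases hj : j = i
    · subst hj; simp
    · simp [Pi.mulSingle_eq_of_ne hj]
  have hK : (R.map φ.toMonoidHom).Normal := hR.map _ φ.surjective
  obtain ⟨a, b, hab⟩ := hT
  have ha : a ≠ 1 := by rintro rfl; simp at hab
  have h1 : φ (Pi.mulSingle i a) ≠ 1 := by
    rw [Ne, MulEquiv.map_eq_one_iff, Pi.mulSingle_eq_one_iff]; exact ha
  obtain ⟨j, hj⟩ : ∃ j, φ (Pi.mulSingle i a) j ≠ 1 := by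
    by_contra h
    push Not at h
    exact h1 (funext h)
  refine ⟨j, fun x => ?_⟩
  have := mulSingle_mem_of_normal ⟨a, b, hab⟩ (R.map φ.toMonoidHom) (φ (Pi.mulSingle i a))
    ⟨_, ⟨a, rfl⟩, rfl⟩ j hj x
  obtain ⟨_, ⟨y, rfl⟩, hy⟩ := this
  exact ⟨y, hy⟩

/-- automorphisms of `T^k`, `T` non-abelian simple, permute the coordinates -/
theorem aut_pi_simple (hT : ∃ x y : T, x * y ≠ y * x) (φ : (κ → T) ≃* (κ → T)) :
    ∃ (π : Equiv.Perm κ) (α : κ → (T ≃* T)), ∀ (t : κ → T) (i : κ), φ t (π i) = α i (t i) := by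
  obtain ⟨a, b, hab⟩ := id hT
  have ha : a ≠ 1 := by rintro rfl; simp at hab
  choose p hp using exists_coord hT φ
  choose p' hp' using exists_coord hT φ.symm
  have e1 : ∀ i, p' (p i) = i := by
    intro i
    obtain ⟨x, hx⟩ := hp' (p i) a
    obtain ⟨y, hy⟩ := hp i x
    rw [← hy, MulEquiv.symm_apply_apply] at hx
    by_contra hne
    have := congrFun hx (p' (p i))
    rw [Pi.mulSingle_eq_same, Pi.mulSingle_eq_of_ne hne] at this
    exact ha this.symm
  have e2 : ∀ i, p (p' i) = i := by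
    have hinj : Function.Injective p := Function.LeftInverse.injective e1
    have hsurj : Function.Surjective p := Finite.surjective_of_injective hinj
    intro i
    obtain ⟨k, rfl⟩ := hsurj i
    rw [e1]
  -- images of the coordinate subgroups
  have him : ∀ i y, ∃ x, φ (Pi.mulSingle i y) = Pi.mulSingle (p i) x := by
    intro i y
    obtain ⟨x, hx⟩ := hp' (p i) y
    rw [e1] at hx
    exact ⟨x, by rw [← hx, MulEquiv.apply_symm_apply]⟩
  let f : κ → (T →* T) := fun i =>
    (Pi.evalMonoidHom (fun _ : κ => T) (p i)).comp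
      (φ.toMonoidHom.comp (MonoidHom.mulSingle (fun _ : κ => T) i))
  have hf : ∀ i x, f i x = φ (Pi.mulSingle i x) (p i) := fun i x => rfl
  have him2 : ∀ i y, φ (Pi.mulSingle i y) = Pi.mulSingle (p i) (f i y) := by
    intro i y
    obtain ⟨x, hx⟩ := him i y
    rw [hf, hx, Pi.mulSingle_eq_same]
  have hbij : ∀ i, Function.Bijective (f i) := by
    intro i
    constructor
    · intro x y hxy
      have h1 : φ (Pi.mulSingle i x) = φ (Pi.mulSingle i y) := by rw [him2, him2, hxy]
      have h2 := congrFun (φ.injective h1) i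
      simpa using h2
    · intro x
      obtain ⟨y, hy⟩ := hp i x
      exact ⟨y, by rw [hf, hy, Pi.mulSingle_eq_same]⟩
  refine ⟨⟨p, p', e1, e2⟩, fun i => MulEquiv.ofBijective (f i) (hbij i), fun t i => ?_⟩
  change φ t (p i) = f i (t i)
  have hu : t = Pi.mulSingle i (t i) * ((Pi.mulSingle i (t i))⁻¹ * t) := by group
  obtain ⟨u, hu2⟩ : ∃ u, u = (Pi.mulSingle i (t i))⁻¹ * t := ⟨_, rfl⟩
  have hui : u i = 1 := by rw [hu2]; simp
  rw [← hu2] at hu
  have h1 : φ u (p i) = 1 := by
    by_contra hne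
    obtain ⟨s, hs⟩ := exists_not_comm hT _ hne
    obtain ⟨y, hy⟩ := hp i s
    have hcomm : Pi.mulSingle i y * u = u * Pi.mulSingle i y := by
      funext j
      by_cases hj : j = i
      · subst hj; simp [hui]
      · simp [Pi.mulSingle_eq_of_ne hj]
    have h2 := congrArg (fun w => φ w (p i)) hcomm
    simp only [map_mul, Pi.mul_apply, hy, Pi.mulSingle_eq_same] at h2
    exact hs h2
  calc φ t (p i) = φ (Pi.mulSingle i (t i) * u) (p i) := by rw [← hu]
    _ = f i (t i) := by rw [map_mul, Pi.mul_apply, h1, mul_one, hf]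

end

end Pool.Agent.H202IG
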