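import Mathlib

set_option autoImplicit false
open Equiv Equiv.Perm

namespace Pool.Agent.H202IG

section
variable {κ ι : Type} [Fintype κ] [DecidableEq κ] [Fintype ι] [DecidableEq ι]

/-- a permutation `σ` with `σ ^ p = 1` leaves invariant a set of every size `m ≤ n` divisible by `p` -/
theorem exists_invariant_finset (σ : Perm ι) (p s : ℕ) (hp : p.Prime) (hσ : σ ^ p = 1)
    (hmn : p * s ≤ Fintype.card ι) : ∃ B : Finset ι, B.card = p * s ∧ ∀ x ∈ B, σ x ∈ B := by
  induction s with
  | zero => exact ⟨∅, by simp, by simp⟩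
  | succ s ih =>
    obtain ⟨B, hB, hinv⟩ := ih (le_trans (Nat.mul_le_mul_left p (Nat.le_succ s)) hmn)
    have hinv' : ∀ x ∉ B, σ x ∉ B := by
      intro x hx hsx
      apply hx
      have : ∀ k : ℕ, (σ ^ k) (σ x) ∈ B := by
        intro k
        induction k with
        | zero => simpa using hsx
        | succ k ihk => rw [pow_succ', Perm.mul_apply]; exact hinv _ ihk
      have h1 := this (p - 1)
      rw [← Perm.mul_apply, ← pow_succ, Nat.sub_add_cancel hp.one_le, hσ] at h1
      simpa using h1
    have hc : p ≤ (Finset.univ \ B).card := by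
      rw [Finset.card_sdiff_of_subset (Finset.subset_univ _), Finset.card_univ, hB]
      have : p * (s + 1) = p * s + p := by ring
      omega
    suffices h : ∃ C : Finset ι, C.card = p ∧ C ⊆ Finset.univ \ B ∧ ∀ x ∈ C, σ x ∈ C by
      obtain ⟨C, hC1, hC2, hC3⟩ := h
      refine ⟨B ∪ C, ?_, ?_⟩
      · rw [Finset.card_union_of_disjoint, hB, hC1]
        · ring
        · rw [Finset.disjoint_left]
          intro x hxB hxC
          have := hC2 hxC
          rw [Finset.mem_sdiff] at this
          exact this.2 hxB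
      · intro x hx
        rw [Finset.mem_union] at hx ⊢
        exact hx.imp (hinv x) (hC3 x)
    by_cases hfix : ∀ x ∉ B, σ x = x
    · obtain ⟨C, hC1, hC2⟩ := Finset.exists_subset_card_eq hc
      refine ⟨C, hC2, hC1, fun x hx => ?_⟩
      have := hC1 hx
      rw [Finset.mem_sdiff] at this
      rw [hfix x this.2]; exact hx
    · push Not at hfix
      obtain ⟨x, hxB, hx⟩ := hfix
      have hinj : ∀ i j : ℕ, i < j → j < p → (σ ^ i) x ≠ (σ ^ j) x := by
        intro i j hij hjp he
        apply hx
        have h1 : (σ ^ (j - i)) x = x := by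
          have : (σ ^ i) ((σ ^ (j - i)) x) = (σ ^ i) x := by
            rw [← Perm.mul_apply, ← pow_add, he, show i + (j - i) = j by omega]
          exact (σ ^ i).injective this
        have hcop : Nat.Coprime (j - i) p := by
          rw [Nat.coprime_comm, hp.coprime_iff_not_dvd]
          intro hd
          have := Nat.le_of_dvd (by omega) hd
          omega
        obtain ⟨u, -, hu⟩ := Nat.exists_mul_mod_eq_one_of_coprime hcop hp.one_lt
        have h2 : ∀ k : ℕ, ((σ ^ (j - i)) ^ k) x = x := by
          intro k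
          induction k with
          | zero => simp
          | succ k ihk => rw [pow_succ, Perm.mul_apply, h1, ihk]
        have h3 := h2 u
        rw [← pow_mul, pow_eq_pow_mod _ hσ, hu, pow_one] at h3
        exact h3
      refine ⟨(Finset.range p).image (fun k => (σ ^ k) x), ?_, ?_, ?_⟩
      · rw [Finset.card_image_of_injOn, Finset.card_range]
        intro i hi j hj he
        simp only [Finset.coe_range, Set.mem_Iio] at hi hj
        rcases lt_trichotomy i j with h | h | h
        · exact absurd he (hinj i j h hj)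
        · exact h
        · exact absurd he.symm (hinj j i h hi)
      · intro y hy
        rw [Finset.mem_image] at hy
        obtain ⟨k, -, rfl⟩ := hy
        rw [Finset.mem_sdiff]
        refine ⟨Finset.mem_univ _, ?_⟩
        induction k with
        | zero => simpa using hxB
        | succ k ihk => rw [pow_succ', Perm.mul_apply]; exact hinv' _ ihk
      · intro y hy
        rw [Finset.mem_image] at hy ⊢
        obtain ⟨k, hk, rfl⟩ := hy
        rw [Finset.mem_range] at hk
        refine ⟨(k + 1) % p, Finset.mem_range.2 (Nat.mod_lt _ hp.pos), ?_⟩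
        rw [← pow_eq_pow_mod _ hσ, pow_succ', Perm.mul_apply]

theorem exists_invariant_fibres [Nonempty ι] (v : Perm (κ × ι))
    (hv : ∀ i x y, (v (i, x)).1 = (v (i, y)).1) (p s : ℕ) (hp : p.Prime) (hvp : v ^ p = 1)
    (hmn : p * s ≤ Fintype.card ι) :
    ∃ S : Set (κ × ι), (∀ i, {x | (i, x) ∈ S}.ncard = p * s) ∧ ∀ z ∈ S, v z ∈ S := by
  classical
  obtain ⟨x0⟩ := ‹Nonempty ι›
  have hvl : ∀ (l : ℕ) i x y, ((v ^ l) (i, x)).1 = ((v ^ l) (i, y)).1 := by
    intro l
    induction l with
    | zero => intro i x y; simp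
    | succ l ih =>
      intro i x y
      rw [pow_succ, Perm.mul_apply, Perm.mul_apply]
      have e1 : v (i, x) = ((v (i, x)).1, (v (i, x)).2) := rfl
      have e2 : v (i, y) = ((v (i, x)).1, (v (i, y)).2) := by rw [hv i x y]
      rw [e1, e2]
      exact ih _ _ _
  obtain ⟨nb, hnb⟩ : ∃ nb : ℕ → κ → κ, ∀ l i x, ((v ^ l) (i, x)).1 = nb l i :=
    ⟨fun l i => ((v ^ l) (i, x0)).1, fun l i x => hvl l i x x0⟩
  have hadd : ∀ l k i, nb (l + k) i = nb l (nb k i) := by
    intro l k i
    rw [← hnb (l + k) i x0, pow_add, Perm.mul_apply, ← hnb l (nb k i) (((v ^ k) (i, x0)).2)]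
    congr 2
    rw [← hnb k i x0]
  have hper : ∀ l, nb l = nb (l % p) := by
    intro l
    funext i
    rw [← hnb l i x0, ← hnb (l % p) i x0, pow_eq_pow_mod l hvp]
  have hzero : ∀ i, nb 0 i = i := by
    intro i; rw [← hnb 0 i x0]; simp
  -- choice of B
  have hB : ∀ i, ∃ B : Finset ι, B.card = p * s ∧
      ∀ l y, nb l i = i → y ∈ B → ∃ y' ∈ B, (v ^ l) (i, y) = (i, y') := by
    intro i
    by_cases h1 : nb 1 i = i
    · have hvi : ∀ x, v (i, x) = (i, (v (i, x)).2) := by
        intro x
        have := hnb 1 i x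
        rw [pow_one, h1] at this
        exact Prod.ext this rfl
      have hinj : Function.Injective (fun x => (v (i, x)).2) := by
        intro x y hxy
        have : v (i, x) = v (i, y) := by rw [hvi x, hvi y]; exact Prod.ext rfl hxy
        exact (Prod.ext_iff.1 (v.injective this)).2
      let σ : Perm ι := Equiv.ofBijective _ (Finite.injective_iff_bijective.1 hinj)
      have hσ : ∀ (l : ℕ) x, (v ^ l) (i, x) = (i, (σ ^ l) x) := by
        intro l
        induction l with
        | zero => intro x; simp
        | succ l ih =>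
          intro x
          rw [pow_succ', Perm.mul_apply, ih, hvi, pow_succ', Perm.mul_apply]
          rfl
      have hσp : σ ^ p = 1 := by
        ext x
        have := hσ p x
        rw [hvp, Perm.one_apply] at this
        rw [Perm.one_apply]
        exact (Prod.ext_iff.1 this).2.symm
      obtain ⟨B, hB1, hB2⟩ := exists_invariant_finset σ p s hp hσp hmn
      have hB3 : ∀ (l : ℕ) y, y ∈ B → (σ ^ l) y ∈ B := by
        intro l y hy
        induction l with
        | zero => simpa using hy
        | succ l ih => rw [pow_succ', Perm.mul_apply]; exact hB2 _ ih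
      exact ⟨B, hB1, fun l y _ hy => ⟨(σ ^ l) y, hB3 l y hy, hσ l y⟩⟩
    · have hle : p * s ≤ (Finset.univ : Finset ι).card := by rw [Finset.card_univ]; exact hmn
      obtain ⟨B, hB1, hB2⟩ := Finset.exists_subset_card_eq hle
      refine ⟨B, hB2, fun l y hl hy => ⟨y, hy, ?_⟩⟩
      have hd : p ∣ l := by
        by_contra hnd
        apply h1
        have hcop : Nat.Coprime l p := (Nat.coprime_comm.1 ((hp.coprime_iff_not_dvd).2 hnd))
        obtain ⟨u, -, hu⟩ := Nat.exists_mul_mod_eq_one_of_coprime hcop hp.one_lt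
        have h2 : ∀ k : ℕ, nb (l * k) i = i := by
          intro k
          induction k with
          | zero => simpa using hzero i
          | succ k ihk => rw [Nat.mul_succ, hadd, hl, ihk]
        have h3 := h2 u
        rw [hper, hu] at h3
        exact h3
      obtain ⟨c, rfl⟩ := hd
      rw [pow_mul, hvp, one_pow, Perm.one_apply]
  choose B hB1 hB2 using hB
  -- representatives
  have hsymm : ∀ l i, nb ((p - 1) * l) (nb l i) = i := by
    intro l i
    rw [← hadd, hper, show (p - 1) * l + l = p * l by
      obtain ⟨c, rfl⟩ : ∃ c, p = c + 1 := ⟨p - 1, by have := hp.pos; omega⟩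
      simp only [Nat.add_sub_cancel]; ring, Nat.mul_mod_right, hzero]
  let st : Setoid κ :=
    { r := fun i j => ∃ l, nb l i = j
      iseqv := ⟨fun i => ⟨0, hzero i⟩, fun {i j} ⟨l, hl⟩ => ⟨(p - 1) * l, by rw [← hl, hsymm]⟩,
        fun {i j k} ⟨l, hl⟩ ⟨m, hm⟩ => ⟨m + l, by rw [hadd, hl, hm]⟩⟩ }
  let r : κ → κ := fun i => (Quotient.mk st i).out
  have hr1 : ∀ i, ∃ l, nb l (r i) = i := by
    intro i
    have h1 : Quotient.mk st (Quotient.mk st i).out = Quotient.mk st i :=
      Quotient.out_eq (Quotient.mk st i)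
    exact Quotient.exact h1
  have hr2 : ∀ i l, r (nb l i) = r i := by
    intro i l
    change (Quotient.mk st (nb l i)).out = (Quotient.mk st i).out
    have h1 : Quotient.mk st i = Quotient.mk st (nb l i) := Quotient.sound (s := st) ⟨l, rfl⟩
    rw [← h1]
  refine ⟨{z | ∃ l y, y ∈ B (r z.1) ∧ (v ^ l) (r z.1, y) = z}, ?_, ?_⟩
  · intro i
    obtain ⟨l0, hl0⟩ := hr1 i
    have himg : {x | (i, x) ∈ {z : κ × ι | ∃ l y, y ∈ B (r z.1) ∧ (v ^ l) (r z.1, y) = z}} =
        (fun y => ((v ^ l0) (r i, y)).2) '' (B (r i) : Set ι) := by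
      ext x
      simp only [Set.mem_ofPred_eq, Set.mem_image, Finset.mem_coe]
      constructor
      · rintro ⟨l, y, hy, hly⟩
        have h1 : nb l (r i) = i := by rw [← hnb l (r i) y, hly]
        obtain ⟨y', hy', he⟩ := hB2 (r i) ((p - 1) * l0 + l) y (by
          rw [hadd, h1]
          nth_rewrite 1 [← hl0]
          exact hsymm _ _) hy
        refine ⟨y', hy', ?_⟩
        have h2 : (v ^ l0) (r i, y') = (i, x) := by
          rw [← he, ← Perm.mul_apply, ← pow_add, ← hly,
            show l0 + ((p - 1) * l0 + l) = p * l0 + l by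
              obtain ⟨c, rfl⟩ : ∃ c, p = c + 1 := ⟨p - 1, by have := hp.pos; omega⟩
              simp only [Nat.add_sub_cancel]; ring]
          rw [pow_add, pow_mul, hvp, one_pow, one_mul]
        rw [h2]
      · rintro ⟨y, hy, rfl⟩
        refine ⟨l0, y, hy, ?_⟩
        refine Prod.ext ?_ rfl
        rw [hnb, hl0]
    rw [himg, Set.ncard_image_of_injective, Set.ncard_coe_finset, hB1]
    intro y y' h
    have h1 : (v ^ l0) (r i, y) = (v ^ l0) (r i, y') := by
      refine Prod.ext ?_ h
      rw [hnb, hnb]
    exact (Prod.ext_iff.1 ((v ^ l0).injective h1)).2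
  · rintro z ⟨l, y, hy, hz⟩
    have h1 : r (v z).1 = r z.1 := by
      have : (v z).1 = nb 1 z.1 := by
        have := hnb 1 z.1 z.2
        rw [pow_one] at this
        exact this
      rw [this, hr2]
    refine ⟨l + 1, y, by rw [h1]; exact hy, ?_⟩
    rw [h1, pow_succ', Perm.mul_apply, hz]

end

end Pool.Agent.H202IG
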