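import Mathlib
import Pool.Agent.H202IG.Invariant
import Pool.Agent.H202IG.AutPi
import Pool.Agent.H202IG.AutAlt

set_option autoImplicit false
set_option linter.unusedSectionVars false
open Equiv Equiv.Perm MulAction
open scoped Pointwise

namespace Pool.Agent.H202IG

section
variable {κ ι : Type} [Fintype κ] [DecidableEq κ] [Fintype ι] [DecidableEq ι]

/-- the coordinatewise action of `A_n^k` on `κ × ι` -/
def rho : (κ → alternatingGroup ι) →* Perm (κ × ι) where
  toFun t := Equiv.prodCongrRight (fun i => ((t i : alternatingGroup ι) : Perm ι))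
  map_one' := by ext z <;> simp
  map_mul' s t := by ext z <;> simp

theorem rho_apply (t : κ → alternatingGroup ι) (i : κ) (x : ι) :
    rho t (i, x) = (i, ((t i : alternatingGroup ι) : Perm ι) x) := rfl

theorem exists_even_image (B B' : Set ι) (h : B.ncard = B'.ncard) (h2 : 2 ≤ B.ncard) :
    ∃ σ : alternatingGroup ι, (σ : Perm ι) '' B = B' := by
  classical
  have hcard : Fintype.card {x // x ∈ B} = Fintype.card {x // x ∈ B'} := by
    rw [← Nat.card_eq_fintype_card, ← Nat.card_eq_fintype_card]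
    exact h
  let e : {x // x ∈ B} ≃ {x // x ∈ B'} := Fintype.equivOfCardEq hcard
  have him : (e.extendSubtype : Perm ι) '' B = B' := by
    ext y
    constructor
    · rintro ⟨x, hx, rfl⟩
      exact e.extendSubtype_mem x hx
    · intro hy
      refine ⟨e.extendSubtype.symm y, ?_, by simp⟩
      by_contra hn
      have := e.extendSubtype_not_mem _ hn
      rw [Equiv.apply_symm_apply] at this
      exact this hy
  rcases Int.units_eq_one_or (sign e.extendSubtype) with hs | hs
  · exact ⟨⟨e.extendSubtype, mem_alternatingGroup.2 hs⟩, him⟩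
  · obtain ⟨a, ha, b, hb, hab⟩ := (Set.one_lt_ncard (Set.toFinite B)).1 h2
    refine ⟨⟨e.extendSubtype * swap a b, ?_⟩, ?_⟩
    · rw [mem_alternatingGroup, map_mul, hs, sign_swap hab]; rfl
    · have hsw : (swap a b : Perm ι) '' B = B := by
        ext y
        constructor
        · rintro ⟨x, hx, rfl⟩
          by_cases h1 : x = a
          · subst h1; rw [swap_apply_left]; exact hb
          by_cases h2 : x = b
          · subst h2; rw [swap_apply_right]; exact ha
          rw [swap_apply_of_ne_of_ne h1 h2]; exact hx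
        · intro hy
          refine ⟨swap a b y, ?_, by simp⟩
          by_cases h1 : y = a
          · subst h1; rw [swap_apply_left]; exact hb
          by_cases h2 : y = b
          · subst h2; rw [swap_apply_right]; exact ha
          rw [swap_apply_of_ne_of_ne h1 h2]; exact hy
      calc ((e.extendSubtype * swap a b : Perm ι) : ι → ι) '' B
          = (e.extendSubtype : Perm ι) '' ((swap a b : Perm ι) '' B) := by
            rw [← Set.image_comp]; rfl
        _ = B' := by rw [hsw, him]

theorem smul_eq_of_forward {X : Type} [Finite X] (σ : Perm X) (S : Set X)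
    (h : ∀ z ∈ S, σ z ∈ S) : σ • S = S := by
  refine Set.eq_of_subset_of_ncard_le ?_ ?_ (Set.toFinite S)
  · rintro _ ⟨z, hz, rfl⟩
    exact h z hz
  · rw [Set.ncard_smul_set]

theorem wreath_core {G : Type} [Group G] [Nonempty κ] (F : G →* Perm (κ × ι))
    (hF : ∀ g i x y, (F g (i, x)).1 = (F g (i, y)).1)
    (hN : ∀ t : κ → alternatingGroup ι, ∃ g, F g = rho t) (p q : ℕ) (hp : p.Prime) (hq : q.Prime)
    (a b : G) (ha : a ^ p = 1) (hb : b ^ q = 1)
    (hinv : ∀ g h : G, Subgroup.closure {g⁻¹ * a * g, h⁻¹ * b * h} = ⊤) :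
    Fintype.card ι ≤ p * q := by
  classical
  by_contra hlt
  push Not at hlt
  have hpq4 : 4 ≤ p * q := Nat.mul_le_mul hp.two_le hq.two_le
  have : Nonempty ι := Fintype.card_pos_iff.1 (by omega)
  obtain ⟨Sa, hSa1, hSa2⟩ := exists_invariant_fibres (F a) (hF a) p q hp
    (by rw [← map_pow, ha, map_one]) hlt.le
  obtain ⟨Sb, hSb1, hSb2⟩ := exists_invariant_fibres (F b) (hF b) q p hq
    (by rw [← map_pow, hb, map_one]) (by rw [mul_comm]; exact hlt.le)
  have hσ : ∀ i : κ, ∃ σ : alternatingGroup ι,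
      (σ : Perm ι) '' {x | (i, x) ∈ Sb} = {x | (i, x) ∈ Sa} := by
    intro i
    apply exists_even_image
    · rw [hSa1, hSb1, mul_comm]
    · rw [hSb1, mul_comm]; omega
  choose σ hσ using hσ
  obtain ⟨g, hg⟩ := hN σ
  have hb' : ∀ z ∈ Sa, F (g * b * g⁻¹) z ∈ Sa := by
    rintro ⟨i, x⟩ hx
    have h1 : x ∈ (σ i : Perm ι) '' {x | (i, x) ∈ Sb} := by rw [hσ i]; exact hx
    obtain ⟨y, hy, rfl⟩ := h1
    have h2 : F g (i, y) = (i, (σ i : Perm ι) y) := by rw [hg, rho_apply]
    rw [map_mul, map_mul, ← h2, Perm.mul_apply, Perm.mul_apply, map_inv,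
      ← Perm.mul_apply (F g)⁻¹ (F g), inv_mul_cancel, Perm.one_apply]
    have h3 := hSb2 (i, y) hy
    obtain ⟨⟨j, w⟩, hjw⟩ : ∃ z, z = F b (i, y) := ⟨_, rfl⟩
    rw [← hjw] at h3 ⊢
    rw [hg, rho_apply]
    have h4 : (σ j : Perm ι) w ∈ {x | (j, x) ∈ Sa} := by
      rw [← hσ j]; exact ⟨w, h3, rfl⟩
    exact h4
  have hle : (⊤ : Subgroup G) ≤ (MulAction.stabilizer (Perm (κ × ι)) Sa).comap F := by
    rw [← hinv 1 g⁻¹, Subgroup.closure_le]
    intro c hc
    rcases hc with rfl | rfl
    · simp only [inv_one, one_mul, mul_one]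
      exact smul_eq_of_forward (F a) Sa hSa2
    · simp only [inv_inv]
      exact smul_eq_of_forward _ Sa hb'
  obtain ⟨i⟩ := ‹Nonempty κ›
  have hne : {x | (i, x) ∈ Sa}.Nonempty := by
    rw [← Set.ncard_pos (Set.toFinite _), hSa1]; omega
  obtain ⟨x, hx⟩ := hne
  obtain ⟨z, hz⟩ : ∃ z, z ∉ {x | (i, x) ∈ Sa} := by
    by_contra hcon
    push Not at hcon
    have h1 : {x | (i, x) ∈ Sa} = Set.univ := Set.eq_univ_of_forall hcon
    have h2 := hSa1 i
    rw [h1, Set.ncard_univ, Nat.card_eq_fintype_card] at h2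
    omega
  have hxz : x ≠ z := by rintro rfl; exact hz hx
  obtain ⟨y, hy⟩ : ∃ y, y ∉ ({x, z} : Finset ι) := by
    by_contra hc
    push Not at hc
    have : Fintype.card ι ≤ ({x, z} : Finset ι).card := by
      rw [← Finset.card_univ]; exact Finset.card_le_card fun x _ => hc x
    have h2 := Finset.card_le_two (a := x) (b := z)
    omega
  simp only [Finset.mem_insert, Finset.mem_singleton, not_or] at hy
  have hτ : swap x y * swap x z ∈ alternatingGroup ι := by
    rw [mem_alternatingGroup, map_mul, sign_swap (Ne.symm hy.1), sign_swap hxz]; rfl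
  obtain ⟨g', hg'⟩ := hN (Pi.mulSingle i ⟨swap x y * swap x z, hτ⟩)
  have h5 : F g' • Sa = Sa := hle (Subgroup.mem_top g')
  have h6 : F g' (i, x) ∈ Sa := by
    rw [← h5]; exact ⟨(i, x), hx, rfl⟩
  rw [hg', rho_apply, Pi.mulSingle_eq_same] at h6
  apply hz
  have h7 : (swap x y * swap x z) x = z := by
    rw [Perm.mul_apply, swap_apply_left, swap_apply_of_ne_of_ne hxz.symm (Ne.symm hy.2)]
  rw [h7] at h6
  exact h6

end

end Pool.Agent.H202IG
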