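import Mathlib
import Pool.Agent.H202IG.WreathCore

set_option autoImplicit false
set_option linter.unusedSectionVars false
open Equiv Equiv.Perm MulAction
open scoped Pointwise

namespace Pool.Agent.H202IG

section
variable {κ ι : Type} [Fintype κ] [DecidableEq κ] [Fintype ι] [DecidableEq ι]

theorem exists_w (hι : 7 ≤ Fintype.card ι)
    (φ : (κ → alternatingGroup ι) ≃* (κ → alternatingGroup ι)) :
    ∃ w : Perm (κ × ι), (∀ i x y, (w (i, x)).1 = (w (i, y)).1) ∧
      ∀ t, rho (φ t) = w * rho t * w⁻¹ := by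
  classical
  have hsimple : IsSimpleGroup (alternatingGroup ι) :=
    alternatingGroup.isSimpleGroup (by rw [Nat.card_eq_fintype_card]; omega)
  have hT : ∃ x y : alternatingGroup ι, x * y ≠ y * x := by
    by_contra h
    push Not at h
    have h1 : Subgroup.center (alternatingGroup ι) = ⊤ := by
      rw [eq_top_iff]
      intro x _
      rw [Subgroup.mem_center_iff]
      intro g
      exact h g x
    rw [alternatingGroup.center_eq_bot (by rw [Nat.card_eq_fintype_card]; omega)] at h1
    exact bot_ne_top h1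
  obtain ⟨π, α, hα⟩ := aut_pi_simple hT φ
  choose σ hσ using fun i => aut_eq_conj hι (α i)
  let w : Perm (κ × ι) := (Equiv.prodCongrRight σ).trans (Equiv.prodCongr π (Equiv.refl ι))
  have hw : ∀ i x, w (i, x) = (π i, σ i x) := fun i x => rfl
  refine ⟨w, fun i x y => by rw [hw, hw], fun t => ?_⟩
  rw [eq_mul_inv_iff_mul_eq]
  refine Equiv.ext ?_
  rintro ⟨i, x⟩
  rw [Perm.mul_apply, Perm.mul_apply, hw, rho_apply, rho_apply, hw, hα, hσ]
  simp

theorem rho_centralizer (hι : 7 ≤ Fintype.card ι) (v : Perm (κ × ι))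
    (h : ∀ t, v * rho t = rho t * v) : v = 1 := by
  classical
  refine Equiv.ext ?_
  rintro ⟨i, x⟩
  rw [Perm.one_apply]
  obtain ⟨⟨j, y⟩, hjy⟩ : ∃ z, z = v (i, x) := ⟨_, rfl⟩
  rw [← hjy]
  by_contra hne
  have hex : ∃ g : alternatingGroup ι, (g : Perm ι) y ≠ y ∧ (j = i → (g : Perm ι) x = x) := by
    by_cases hji : j = i
    · have hyx : y ≠ x := by
        rintro rfl; exact hne (by rw [hji])
      by_contra hcon
      push Not at hcon
      apply hyx
      apply fix_only hι
      intro g hg
      by_contra hgy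
      exact (hcon g hgy).2 hg
    · have : Nontrivial ι := Fintype.one_lt_card_iff_nontrivial.1 (by omega)
      obtain ⟨x', hx'⟩ := exists_ne y
      by_contra hcon
      push Not at hcon
      apply hx'.symm
      apply fix_only hι
      intro g hg
      by_contra hgy
      exact absurd (hcon g hgy).1 hji
  obtain ⟨g, hg1, hg2⟩ := hex
  have h1 : rho (Pi.mulSingle j g : κ → alternatingGroup ι) (i, x) = (i, x) := by
    rw [rho_apply]
    by_cases hji : j = i
    · subst hji; rw [Pi.mulSingle_eq_same, hg2 rfl]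
    · rw [Pi.mulSingle_eq_of_ne (Ne.symm hji)]; simp
  have h2 := congrArg (fun s : Perm (κ × ι) => s (i, x)) (h (Pi.mulSingle j g))
  simp only [Perm.mul_apply] at h2
  rw [h1, ← hjy, rho_apply, Pi.mulSingle_eq_same] at h2
  exact hg1 (Prod.ext_iff.1 h2).2.symm

theorem rho_conj_unique (hι : 7 ≤ Fintype.card ι) (w₁ w₂ : Perm (κ × ι))
    (h : ∀ t, w₁ * rho t * w₁⁻¹ = w₂ * rho t * w₂⁻¹) : w₁ = w₂ := by
  have := rho_centralizer hι (w₂⁻¹ * w₁) (fun t => by
    have h1 := h t
    rw [mul_inv_eq_iff_eq_mul] at h1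
    rw [mul_assoc, h1]
    group)
  rw [inv_mul_eq_one] at this
  exact this.symm

/-- `a` and `b` invariably generate `G` -/
def InvGen {G : Type} [Group G] (a b : G) : Prop :=
  ∀ g h : G, Subgroup.closure {g⁻¹ * a * g, h⁻¹ * b * h} = ⊤

theorem no_normal {G : Type} [Group G] [Nonempty κ] (N : Subgroup G) [N.Normal]
    (e : N ≃* (κ → alternatingGroup ι)) (p q : ℕ) (hp : p.Prime) (hq : q.Prime) (hpq : p ≠ q)
    (a b : G) (ha : a ^ p = 1) (hb : b ^ q = 1) (hinv : InvGen a b) :
    Fintype.card ι ≤ p * q := by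
  by_contra hlt
  push Not at hlt
  have h6 : 6 ≤ p * q := by
    have h2 := hp.two_le
    have h3 := hq.two_le
    rcases lt_or_gt_of_ne hpq with h | h <;> nlinarith
  have hι : 7 ≤ Fintype.card ι := by omega
  let φ : G → ((κ → alternatingGroup ι) ≃* (κ → alternatingGroup ι)) :=
    fun g => e.symm.trans ((MulAut.conjNormal g).trans e)
  have hφmul : ∀ g h t, φ (g * h) t = φ g (φ h t) := by
    intro g h t
    change e (MulAut.conjNormal (g * h) (e.symm t)) =
      e (MulAut.conjNormal g (e.symm (e (MulAut.conjNormal h (e.symm t)))))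
    rw [e.symm_apply_apply, map_mul]; rfl
  choose w hw1 hw2 using fun g => exists_w hι (φ g)
  let F : G →* Perm (κ × ι) := MonoidHom.mk' w (by
    intro g h
    apply rho_conj_unique hι
    intro t
    rw [← hw2, hφmul, hw2, hw2]
    group)
  have hFw : ∀ g, F g = w g := fun g => rfl
  have hN : ∀ t : κ → alternatingGroup ι, ∃ g, F g = rho t := by
    intro t
    refine ⟨(e.symm t : N), ?_⟩
    rw [hFw]
    apply rho_conj_unique hι
    intro s
    rw [← hw2, ← map_mul, ← map_inv, ← map_mul]
    congr 1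
    change e (MulAut.conjNormal ((e.symm t : N) : G) (e.symm s)) = t * s * t⁻¹
    have : MulAut.conjNormal ((e.symm t : N) : G) (e.symm s) =
        (e.symm t) * (e.symm s) * (e.symm t)⁻¹ := by
      apply Subtype.ext
      rw [MulAut.conjNormal_apply]
      simp
    rw [this, map_mul, map_mul, map_inv, e.apply_symm_apply, e.apply_symm_apply]
  have := wreath_core F (fun g i x y => hw1 g i x y) hN p q hp hq a b ha hb hinv
  omega

theorem InvGen.map {G Q : Type} [Group G] [Group Q] {a b : G} (h : InvGen a b) (f : G →* Q)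
    (hf : Function.Surjective f) : InvGen (f a) (f b) := by
  intro g' h'
  obtain ⟨g, rfl⟩ := hf g'
  obtain ⟨k, rfl⟩ := hf h'
  have h1 := congrArg (Subgroup.map f) (h g k)
  rw [MonoidHom.map_closure, Set.image_pair, ← MonoidHom.range_eq_map,
    MonoidHom.range_eq_top.2 hf] at h1
  simpa using h1

end

end Pool.Agent.H202IG
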