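import Mathlib
import Pool.Agent.H202IG.NoNormal

set_option autoImplicit false
set_option linter.unusedSectionVars false

open scoped commutatorElement

namespace Pool.Agent.H202IG

theorem conj_mem {G : Type} [Group G] [Finite G] (H : Subgroup G) (p : ℕ) (hp : p.Prime)
    (hH : ¬ p ∣ H.index) (a : G) (ha : a ^ p = 1) : ∃ g : G, g⁻¹ * a * g ∈ H := by
  have : Fact p.Prime := ⟨hp⟩
  have hZ : IsPGroup p (Subgroup.zpowers a) := by
    rintro ⟨z, i, rfl⟩
    refine ⟨1, Subtype.ext ?_⟩
    simp only [pow_one, Subgroup.coe_pow, Subgroup.coe_one]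
    rw [← zpow_natCast, ← zpow_mul, mul_comm, zpow_mul, zpow_natCast, ha, one_zpow]
  obtain ⟨x, hx⟩ := hZ.nonempty_fixed_point_of_prime_not_dvd_card (G ⧸ H) hH
  obtain ⟨g, rfl⟩ := QuotientGroup.mk_surjective x
  refine ⟨g, ?_⟩
  have h1 := hx ⟨a, Subgroup.mem_zpowers a⟩
  have h2 : ((a * g : G) : G ⧸ H) = (g : G ⧸ H) := h1
  rw [QuotientGroup.eq] at h2
  have h3 := H.inv_mem h2
  rw [show ((a * g)⁻¹ * g)⁻¹ = g⁻¹ * a * g by group] at h3
  exact h3

/-- a nontrivial finite soluble group has a nontrivial normal elementary abelian subgroup -/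
theorem exists_normal_elementary (G : Type) [Group G] [Finite G] [Nontrivial G]
    (hG : Group.IsSolvable G) :
    ∃ (N : Subgroup G) (l : ℕ), N.Normal ∧ l.Prime ∧ N ≠ ⊥ ∧ ∀ x ∈ N, x ^ l = 1 := by
  classical
  obtain ⟨n0, hn0⟩ := hG.solvable
  have hex : ∃ n, derivedSeries G n = ⊥ := ⟨n0, hn0⟩
  let n := Nat.find hex
  have hn : derivedSeries G n = ⊥ := Nat.find_spec hex
  have hpos : n ≠ 0 := by
    intro h
    rw [h, derivedSeries_zero] at hn
    exact bot_ne_top hn.symm
  obtain ⟨m, hm⟩ := Nat.exists_eq_succ_of_ne_zero hpos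
  have hD : derivedSeries G m ≠ ⊥ := Nat.find_min hex (by change m < n; omega)
  have hcomm : ∀ x ∈ derivedSeries G m, ∀ y ∈ derivedSeries G m, x * y = y * x := by
    intro x hx y hy
    have h1 : ⁅x, y⁆ ∈ derivedSeries G (m + 1) := by
      rw [derivedSeries_succ]
      exact Subgroup.commutator_mem_commutator hx hy
    rw [show m + 1 = n from hm.symm, hn, Subgroup.mem_bot, commutatorElement_eq_one_iff_mul_comm] at h1
    exact h1
  obtain ⟨D, hDdef⟩ : ∃ D, D = derivedSeries G m := ⟨_, rfl⟩
  rw [← hDdef] at hD hcomm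
  have hDn : D.Normal := hDdef ▸ derivedSeries_normal G m
  have hcard : Nat.card D ≠ 1 := by
    intro h
    exact hD (Subgroup.card_eq_one.1 h)
  obtain ⟨l, hl, hld⟩ := Nat.exists_prime_and_dvd hcard
  have : Fact l.Prime := ⟨hl⟩
  obtain ⟨x, hx⟩ := exists_prime_orderOf_dvd_card' (G := D) l hld
  let N : Subgroup G :=
    { carrier := {x | x ∈ D ∧ x ^ l = 1}
      one_mem' := ⟨D.one_mem, one_pow l⟩
      mul_mem' := by
        rintro u v ⟨hu1, hu2⟩ ⟨hv1, hv2⟩
        refine ⟨D.mul_mem hu1 hv1, ?_⟩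
        have hc : Commute u v := hcomm u hu1 v hv1
        rw [hc.mul_pow, hu2, hv2, one_mul]
      inv_mem' := by
        rintro u ⟨hu1, hu2⟩
        exact ⟨D.inv_mem hu1, by rw [inv_pow, hu2, inv_one]⟩ }
  refine ⟨N, l, ⟨?_⟩, hl, ?_, fun x hx => hx.2⟩
  · rintro u ⟨hu1, hu2⟩ g
    exact ⟨hDn.conj_mem u hu1 g, by rw [conj_pow, hu2]; group⟩
  · intro h
    have h1 : (x : G) ∈ N := ⟨x.2, by
      have := pow_orderOf_eq_one x
      rw [hx] at this
      simpa using congrArg Subtype.val this⟩
    rw [h, Subgroup.mem_bot] at h1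
    have h2 : x = 1 := Subtype.ext h1
    rw [h2, orderOf_one] at hx
    exact hl.one_lt.ne hx

theorem soluble_case (p q : ℕ) (hp : p.Prime) (hq : q.Prime) :
    ∀ (n : ℕ) (G : Type) [Group G] [Finite G], Nat.card G = n → Group.IsSolvable G →
      ∀ a b : G, a ^ p = 1 → b ^ q = 1 → InvGen a b →
      ∀ r : ℕ, r.Prime → r ∣ Nat.card G → r = p ∨ r = q := by
  intro n
  induction n using Nat.strong_induction_on with
  | _ n ih =>
    intro G _ _ hcard hsol a b ha hb hinv r hr hrd
    rcases subsingleton_or_nontrivial G with hs | hnt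
    · rw [Nat.card_unique] at hrd
      exact absurd (Nat.dvd_one.1 hrd) hr.one_lt.ne'
    obtain ⟨N, l, hNn, hl, hNb, hNl⟩ := exists_normal_elementary G hsol
    have : Fact l.Prime := ⟨hl⟩
    have hNp : IsPGroup l N := by
      intro x
      exact ⟨1, Subtype.ext (by simpa using hNl x x.2)⟩
    obtain ⟨k, hk⟩ := IsPGroup.iff_card.1 hNp
    have hNcard : 1 < Nat.card N := by
      have : Nontrivial N := (Subgroup.nontrivial_iff_ne_bot N).2 hNb
      exact Finite.one_lt_card
    have hmul : Nat.card N * N.index = Nat.card G := N.card_mul_index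
    have hQlt : Nat.card (G ⧸ N) < n := by
      change N.index < n
      rw [← hcard, ← hmul]
      have : 0 < N.index := Nat.pos_of_ne_zero Subgroup.index_ne_zero_of_finite
      nlinarith
    have hQ := ih (Nat.card (G ⧸ N)) hQlt (G ⧸ N) rfl
      (Group.isSolvable_of_surjective (QuotientGroup.mk'_surjective N))
      (QuotientGroup.mk' N a) (QuotientGroup.mk' N b)
      (by rw [← map_pow, ha, map_one]) (by rw [← map_pow, hb, map_one])
      (hinv.map (QuotientGroup.mk' N) (QuotientGroup.mk'_surjective N))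
    rw [← hmul] at hrd
    rcases hr.dvd_mul.1 hrd with h | h
    · -- r = l
      rw [hk] at h
      have hrl : r = l := (Nat.prime_dvd_prime_iff_eq hr hl).1 (hr.dvd_of_dvd_pow h)
      by_contra hcon
      push Not at hcon
      rw [hrl] at hcon
      have hcop : Nat.Coprime (Nat.card N) N.index := by
        rw [hk]
        apply Nat.Coprime.pow_left
        rw [hl.coprime_iff_not_dvd]
        intro hd
        rcases hQ l hl hd with h1 | h1
        · exact hcon.1 h1
        · exact hcon.2 h1
      obtain ⟨H, hH⟩ := Subgroup.exists_right_complement'_of_coprime hcop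
      have hidx : H.index = Nat.card N := hH.index_eq_card
      have hpi : ¬ p ∣ H.index := by
        rw [hidx, hk]
        intro hd
        exact hcon.1 ((Nat.prime_dvd_prime_iff_eq hp hl).1 (hp.dvd_of_dvd_pow hd)).symm
      have hqi : ¬ q ∣ H.index := by
        rw [hidx, hk]
        intro hd
        exact hcon.2 ((Nat.prime_dvd_prime_iff_eq hq hl).1 (hq.dvd_of_dvd_pow hd)).symm
      obtain ⟨g, hg⟩ := conj_mem H p hp hpi a ha
      obtain ⟨g', hg'⟩ := conj_mem H q hq hqi b hb
      have htop : (⊤ : Subgroup G) ≤ H := by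
        rw [← hinv g g', Subgroup.closure_le]
        rintro c (rfl | rfl)
        · exact hg
        · exact hg'
      have : H.index = 1 := by rw [top_le_iff.1 htop, Subgroup.index_top]
      omega
    · exact hQ r hr h

end Pool.Agent.H202IG
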